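import Mathlib

/-!
Project CP (MP_123306_an): contractions of planar sets of finite measure onto polygons
modulo null sets.  Definitions and the exact statements of the pieces.
-/

namespace Pool.Agent.R952.LZ

open MeasureTheory Set Metric
open scoped NNReal ENNReal

/-- The Euclidean plane. -/
abbrev E2 (d : ℕ) : Type := EuclideanSpace ℝ (Fin d)

variable {d : ℕ}

/-- A set is a polygon if its boundary can be covered by finitely many line segments. -/
def IsPolygon (P : Set (E2 d)) : Prop :=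
  ∃ S : Finset ((E2 d) × (E2 d)), frontier P ⊆ ⋃ s ∈ S, segment ℝ s.1 s.2

/-- `x` is a contact point of `h`: a paraboloid of opening one touches `h` from above at `x`. -/
def Contact (h : (E2 d) → ℝ) (x : (E2 d)) : Prop :=
  ∃ v : (E2 d), ∀ z : (E2 d), h z ≤ h x + inner ℝ v (z - x) + ‖z - x‖ ^ 2 / 2

/-- The polyhedral convex function `x ↦ max_{(q,b) ∈ J} (⟪q,x⟫ - b)`. -/
noncomputable def pl (J : Finset ((E2 d) × ℝ)) (x : (E2 d)) : ℝ :=
  sSup ((fun j : (E2 d) × ℝ => inner ℝ j.1 x - j.2) '' (J : Set ((E2 d) × ℝ)))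

theorem le_pl {J : Finset ((E2 d) × ℝ)} {j : (E2 d) × ℝ} (hj : j ∈ J) (x : (E2 d)) :
    inner ℝ j.1 x - j.2 ≤ pl J x :=
  le_csSup ((J.finite_toSet.image _).bddAbove) ⟨j, hj, rfl⟩

theorem exists_pl {J : Finset ((E2 d) × ℝ)} (hJ : J.Nonempty) (x : (E2 d)) :
    ∃ j ∈ J, pl J x = inner ℝ j.1 x - j.2 := by
  have hne : ((fun j : (E2 d) × ℝ => inner ℝ j.1 x - j.2) '' (J : Set ((E2 d) × ℝ))).Nonempty :=
    (Finset.coe_nonempty.mpr hJ).image _
  obtain ⟨j, hj, h⟩ := hne.csSup_mem (J.finite_toSet.image _)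
  exact ⟨j, hj, h.symm⟩

theorem pl_le {J : Finset ((E2 d) × ℝ)} (hJ : J.Nonempty) {x : (E2 d)} {c : ℝ}
    (h : ∀ j ∈ J, inner ℝ j.1 x - j.2 ≤ c) : pl J x ≤ c := by
  obtain ⟨j, hj, e⟩ := exists_pl hJ x
  rw [e]; exact h j hj

/-- `h` is `L`-Lipschitz (real constant). -/
def Lip (L : ℝ) (h : (E2 d) → ℝ) : Prop := ∀ x y : (E2 d), |h x - h y| ≤ L * ‖x - y‖

/-- The package of properties of a collapse map `F` with exceptional null set `Z` and
displacement at most `L`. -/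
def Collapse (h : (E2 d) → ℝ) (L : ℝ) (F : (E2 d) → (E2 d)) (Z : Set (E2 d)) : Prop :=
  LipschitzWith 1 F ∧ (∀ x, ‖F x - x‖ ≤ L) ∧ Function.Surjective F ∧ volume Z = 0 ∧
    (∀ x y, F x = F y → F x ∉ Z → x = y) ∧ (∀ x, F x ∉ Z → Contact h x)

end Pool.Agent.R952.LZ
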