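import Pool.Agent.R952.LZ.Stm

/-! Laczkovich's problem: final step. -/

namespace Pool.Agent.R952.LZ

variable {d : ℕ}

open MeasureTheory Set Metric Filter
open scoped NNReal ENNReal Classical Topology

/-- At a density point there is a small closed ball mostly contained in `E`. -/
theorem density_ball (E : Set (E2 d)) (hE : MeasurableSet E) (hpos : 0 < volume E)
    (κ : ℝ) (hκ : 0 < κ) :
    ∃ (x : E2 d) (r : ℝ), 0 < r ∧
      (volume (closedBall x r \ E)).toReal < κ * (volume (closedBall x r)).toReal := by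
  have h1 := Besicovitch.ae_tendsto_measure_inter_div (volume : Measure (E2 d)) E
  have h2 : ∃ x, Tendsto (fun r => volume (E ∩ closedBall x r) / volume (closedBall x r))
      (𝓝[>] 0) (𝓝 1) := by
    by_contra hcon
    push Not at hcon
    have h3 : ∀ᵐ x ∂(volume.restrict E), False := by
      filter_upwards [h1] with x hx
      exact hcon x hx
    rw [ae_iff] at h3
    simp at h3
    exact hpos.ne' h3
  obtain ⟨x, hx⟩ := h2
  have h4 : ∀ᶠ r in 𝓝[>] (0 : ℝ), ENNReal.ofReal (1 - min κ 1 / 2) <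
      volume (E ∩ closedBall x r) / volume (closedBall x r) := by
    refine hx.eventually (lt_mem_nhds ?_)
    rw [← ENNReal.ofReal_one]
    refine (ENNReal.ofReal_lt_ofReal_iff one_pos).2 ?_
    have : 0 < min κ 1 := lt_min hκ one_pos
    linarith
  have h5 : ∀ᶠ r in 𝓝[>] (0 : ℝ), 0 < r := eventually_mem_nhdsWithin
  obtain ⟨r, hr1, hr2⟩ := (h4.and h5).exists
  refine ⟨x, r, hr2, ?_⟩
  have hBpos : 0 < volume (closedBall x r) := measure_closedBall_pos _ _ hr2
  have hBfin : volume (closedBall x r) < ⊤ := measure_closedBall_lt_top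
  have hMpos : 0 < (volume (closedBall x r)).toReal := ENNReal.toReal_pos hBpos.ne' hBfin.ne
  have hIfin : volume (E ∩ closedBall x r) < ⊤ := lt_of_le_of_lt (measure_mono inter_subset_right) hBfin
  have h6 : (1 - min κ 1 / 2) * (volume (closedBall x r)).toReal <
      (volume (E ∩ closedBall x r)).toReal := by
    have h7 : (1 - min κ 1 / 2) < (volume (E ∩ closedBall x r)).toReal /
        (volume (closedBall x r)).toReal := by
      rw [← ENNReal.toReal_div]
      rw [← ENNReal.ofReal_lt_iff_lt_toReal]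
      · exact hr1
      · have : min κ 1 ≤ 1 := min_le_right _ _
        linarith
      · exact (ENNReal.div_lt_top hIfin.ne hBpos.ne').ne
    rwa [lt_div_iff₀ hMpos] at h7
  have h8 : (volume (closedBall x r)).toReal =
      (volume (E ∩ closedBall x r)).toReal + (volume (closedBall x r \ E)).toReal := by
    rw [← measure_inter_add_diff (closedBall x r) hE, inter_comm (closedBall x r) E,
      ENNReal.toReal_add hIfin.ne (lt_of_le_of_lt (measure_mono diff_subset) hBfin).ne]
  have h9 : min κ 1 ≤ κ := min_le_left _ _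
  have h10 : 0 < min κ 1 := lt_min hκ one_pos
  nlinarith

theorem ball_image (hL : S_LIM d) (hP : S_PROX d) (E : Set (E2 d)) (hE : MeasurableSet E)
    (hpos : 0 < volume E) (ω : ℝ) (hω : 0 < ω)
    (hvol : ∀ (x : E2 d) (r : ℝ), 0 < r → (volume (closedBall x r)).toReal = r ^ d * ω) :
    ∃ (F : E2 d → E2 d) (x : E2 d) (ρ : ℝ), LipschitzWith 1 F ∧ 0 < ρ ∧ ball x ρ ⊆ F '' E := by
  obtain ⟨c, hc, hLIM⟩ := hL
  obtain ⟨x, r, hr, hxr⟩ := density_ball E hE hpos ((1 / 4) ^ d / (c * ω)) (by positivity)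
  rw [hvol x r hr] at hxr
  have hfin : volume (closedBall x r \ E) < ⊤ :=
    lt_of_le_of_lt (measure_mono diff_subset) measure_closedBall_lt_top
  have h1 : volume (closedBall x r \ E) < ENNReal.ofReal ((r / 4) ^ d / c) := by
    rw [← ENNReal.ofReal_toReal hfin.ne]
    refine (ENNReal.ofReal_lt_ofReal_iff (by positivity)).2 (hxr.trans_eq ?_)
    have e : (r / 4) ^ d = (1 / 4) ^ d * r ^ d := by rw [← mul_pow]; congr 1; ring
    rw [e]
    field_simp
  obtain ⟨W, hWsub, hWo, hWv⟩ := Set.exists_isOpen_lt_of_lt _ _ h1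
  have hWfin : volume W < ⊤ := hWv.trans ENNReal.ofReal_lt_top
  have h2 : c * (volume W).toReal ≤ (r / 4) ^ d := by
    have h3 : (volume W).toReal ≤ (r / 4) ^ d / c :=
      ENNReal.toReal_le_of_le_ofReal (by positivity) hWv.le
    rw [le_div_iff₀ hc] at h3
    linarith
  obtain ⟨h, hconv, hlip, hnc⟩ := hLIM W hWo hWfin (r / 4) (by positivity) h2
  obtain ⟨k, F, Z, _, _, hF1, hF2, hF3, hF4, _, hF6⟩ :=
    hP h (2 * (r / 4)) (by positivity) hconv hlip
  have hCc : IsCompact (closedBall x r \ W) := (isCompact_closedBall x r).diff hWo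
  have hCE : closedBall x r \ W ⊆ E := by
    intro y hy
    by_contra hyE
    exact hy.2 (hWsub ⟨hy.1, hyE⟩)
  refine ⟨F, x, r / 2, hF1, by positivity, ?_⟩
  have h5 : ball x (r / 2) ∩ Zᶜ ⊆ F '' (closedBall x r \ W) := by
    rintro p ⟨hp, hpZ⟩
    obtain ⟨y, rfl⟩ := hF3 p
    refine ⟨y, ⟨?_, ?_⟩, rfl⟩
    · rw [mem_closedBall, dist_eq_norm]
      rw [mem_ball, dist_eq_norm] at hp
      have h6 := hF2 y
      have h7 : y - x = -(F y - y) + (F y - x) := by abel
      rw [h7]
      refine (norm_add_le _ _).trans ?_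
      rw [norm_neg]
      linarith
    · intro hyW
      exact hnc y hyW (hF6 y hpZ)
  have hdense : Dense (Zᶜ : Set (E2 d)) := by
    have h8 : ∀ᵐ z ∂(volume : Measure (E2 d)), z ∈ Zᶜ := by
      rw [ae_iff]
      simpa using hF4
    exact Measure.dense_of_ae h8
  have h9 : ball x (r / 2) ⊆ closure (ball x (r / 2) ∩ Zᶜ) :=
    hdense.open_subset_closure_inter isOpen_ball
  have h10 : closure (ball x (r / 2) ∩ Zᶜ) ⊆ F '' (closedBall x r \ W) :=
    closure_minimal h5 (hCc.image hF1.continuous).isClosed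
  exact (h9.trans h10).trans (image_mono hCE)

end Pool.Agent.R952.LZ
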