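import Pool.Agent.R952.LZ.Stm

/-! Packing replacements of the grid pieces, in any dimension. -/

namespace Pool.Agent.R952.LZ

variable {d : ℕ}

open MeasureTheory Set Metric
open scoped NNReal ENNReal Classical

/-- `X` is `s`-separated. -/
def Sep (s : ℝ) (X : Finset (E2 d)) : Prop := ∀ x ∈ X, ∀ y ∈ X, x ≠ y → s ≤ dist x y

theorem pack_exists (S : Set (E2 d)) (s : ℝ) (hs : 0 < s) (N : ℕ)
    (hb : ∀ X : Finset (E2 d), (∀ x ∈ X, x ∈ S) → Sep s X → X.card ≤ N) :
    ∃ X : Finset (E2 d), (∀ x ∈ X, x ∈ S) ∧ Sep s X ∧ ∀ y ∈ S, ∃ x ∈ X, dist y x < s := by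
  let T : Set ℕ := {n | ∃ X : Finset (E2 d), (∀ x ∈ X, x ∈ S) ∧ Sep s X ∧ X.card = n}
  have hT0 : T.Nonempty := ⟨0, ∅, by simp, by simp [Sep], by simp⟩
  have hTb : BddAbove T := ⟨N, by rintro n ⟨X, h1, h2, rfl⟩; exact hb X h1 h2⟩
  obtain ⟨X, h1, h2, h3⟩ := Nat.sSup_mem hT0 hTb
  refine ⟨X, h1, h2, fun y hy => ?_⟩
  by_contra hcon
  push Not at hcon
  have hyX : y ∉ X := fun h => by
    have := hcon y h
    rw [dist_self] at this
    linarith
  have hmem : (insert y X).card ∈ T := by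
    refine ⟨insert y X, ?_, ?_, rfl⟩
    · intro x hx
      rcases Finset.mem_insert.1 hx with rfl | hx
      · exact hy
      · exact h1 x hx
    · intro a ha b hb2 hab
      rcases Finset.mem_insert.1 ha with ha1 | ha1
      · rcases Finset.mem_insert.1 hb2 with hb1 | hb1
        · exact absurd (ha1.trans hb1.symm) hab
        · rw [ha1]; exact hcon b hb1
      · rcases Finset.mem_insert.1 hb2 with hb1 | hb1
        · rw [hb1, dist_comm]; exact hcon a ha1
        · exact h2 a ha1 b hb1 hab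
  have h4 := le_csSup hTb hmem
  rw [Finset.card_insert_of_notMem hyX] at h4
  omega

theorem vol_ball (x : E2 d) {r : ℝ} (hr : 0 < r) :
    volume (ball x r) = ENNReal.ofReal (r ^ d) * volume (ball (0 : E2 d) 1) := by
  have := Measure.addHaar_ball_of_pos (volume : Measure (E2 d)) x hr
  rwa [finrank_euclideanSpace_fin] at this

theorem vol_cball (x : E2 d) {r : ℝ} (hr : 0 ≤ r) :
    volume (closedBall x r) = ENNReal.ofReal (r ^ d) * volume (ball (0 : E2 d) 1) := by
  have := Measure.addHaar_closedBall (volume : Measure (E2 d)) x hr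
  rwa [finrank_euclideanSpace_fin] at this

/-- The volume of the unit ball. -/
noncomputable def om (d : ℕ) : ℝ := (volume (ball (0 : E2 d) 1)).toReal

theorem om_pos (d : ℕ) : 0 < om d :=
  ENNReal.toReal_pos (measure_ball_pos _ _ one_pos).ne' measure_ball_lt_top.ne

theorem vol_ball_real (x : E2 d) {r : ℝ} (hr : 0 < r) :
    (volume (ball x r)).toReal = r ^ d * om d := by
  rw [vol_ball x hr, ENNReal.toReal_mul, ENNReal.toReal_ofReal (by positivity)]; rfl

theorem vol_cball_real (x : E2 d) {r : ℝ} (hr : 0 ≤ r) :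
    (volume (closedBall x r)).toReal = r ^ d * om d := by
  rw [vol_cball x hr, ENNReal.toReal_mul, ENNReal.toReal_ofReal (by positivity)]; rfl

theorem pack_le (X : Finset (E2 d)) (s : ℝ) (hs : 0 < s) (hX : Sep s X) (W : Set (E2 d))
    (hW : volume W < ⊤) (hsub : ∀ x ∈ X, ball x (s / 2) ⊆ W) :
    (X.card : ℝ) * ((s / 2) ^ d * om d) ≤ (volume W).toReal := by
  have hdis : (X : Set (E2 d)).PairwiseDisjoint (fun x => ball x (s / 2)) := by
    intro x hx y hy hxy
    refine ball_disjoint_ball ?_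
    have := hX x hx y hy hxy
    linarith
  have h1 : volume (⋃ x ∈ X, ball x (s / 2)) = ∑ x ∈ X, volume (ball x (s / 2)) :=
    measure_biUnion_finset hdis (fun x _ => measurableSet_ball)
  have h2 : volume (⋃ x ∈ X, ball x (s / 2)) ≤ volume W := by
    refine measure_mono (iUnion₂_subset hsub)
  rw [h1] at h2
  have h3 : (∑ x ∈ X, volume (ball x (s / 2))).toReal ≤ (volume W).toReal :=
    ENNReal.toReal_mono hW.ne h2
  rw [ENNReal.toReal_sum (fun x _ => measure_ball_lt_top.ne)] at h3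
  rw [Finset.sum_congr rfl (fun x _ => vol_ball_real x (by positivity : 0 < s / 2))] at h3
  rw [Finset.sum_const, nsmul_eq_mul] at h3
  exact h3

theorem cover_ge (X : Finset (E2 d)) (s : ℝ) (hs : 0 < s) (x₀ : E2 d) (r : ℝ) (hr : 0 ≤ r)
    (hc : ∀ y ∈ closedBall x₀ r, ∃ x ∈ X, dist y x < s) :
    r ^ d ≤ s ^ d * (X.card : ℝ) := by
  have h1 : closedBall x₀ r ⊆ ⋃ x ∈ X, ball x s := by
    intro y hy
    obtain ⟨x, hx, hxy⟩ := hc y hy
    exact mem_iUnion₂.2 ⟨x, hx, hxy⟩
  have h2 : volume (closedBall x₀ r) ≤ ∑ x ∈ X, volume (ball x s) :=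
    (measure_mono h1).trans (measure_biUnion_finset_le _ _)
  have h3 : (volume (closedBall x₀ r)).toReal ≤ (∑ x ∈ X, volume (ball x s)).toReal :=
    ENNReal.toReal_mono (ENNReal.sum_lt_top.2 fun x _ => measure_ball_lt_top).ne h2
  rw [ENNReal.toReal_sum (fun x _ => measure_ball_lt_top.ne), vol_cball_real x₀ hr,
    Finset.sum_congr rfl (fun x _ => vol_ball_real x hs), Finset.sum_const, nsmul_eq_mul] at h3
  have h4 : r ^ d * om d ≤ (s ^ d * (X.card : ℝ)) * om d := by
    calc r ^ d * om d ≤ (X.card : ℝ) * (s ^ d * om d) := h3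
      _ = _ := by ring
  exact le_of_mul_le_mul_right h4 (om_pos d)

theorem t_GRIDX : S_GRIDX d := by
  have ho := om_pos d
  refine ⟨2 ^ d / om d + 2 ^ d, by positivity, ?_⟩
  intro W hW hWf s hs
  have hsd : 0 < s ^ d := by positivity
  have hW0 : 0 ≤ (volume W).toReal := ENNReal.toReal_nonneg
  have hpos : 0 < (s / 2) ^ d * om d := by positivity
  obtain ⟨X, h1, h2, h3⟩ := pack_exists {x : E2 d | ball x (s / 2) ⊆ W} s hs
    (⌊(volume W).toReal / ((s / 2) ^ d * om d)⌋₊) (by
      intro X hX1 hX2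
      refine Nat.le_floor ?_
      rw [le_div_iff₀ hpos]
      exact pack_le X s hs hX2 W hWf hX1)
  refine ⟨X, ?_, ?_⟩
  · have h4 := pack_le X s hs h2 W hWf h1
    have h5 : (X.card : ℝ) * s ^ d ≤ 2 ^ d / om d * (volume W).toReal := by
      rw [div_mul_eq_mul_div, le_div_iff₀ ho]
      have : (X.card : ℝ) * s ^ d * om d = 2 ^ d * ((X.card : ℝ) * ((s / 2) ^ d * om d)) := by
        rw [div_pow]; field_simp
      rw [this]
      exact mul_le_mul_of_nonneg_left h4 (by positivity)
    have h6 : 0 ≤ (2 : ℝ) ^ d * (volume W).toReal := by positivity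
    rw [add_mul]
    linarith
  · intro x₀ r hr hball
    have h7 := cover_ge (X.filter (fun x => dist x x₀ ≤ r)) s hs x₀ (r - 2 * s) (by linarith) (by
      intro y hy
      rw [mem_closedBall] at hy
      have hyS : y ∈ {x : E2 d | ball x (s / 2) ⊆ W} := by
        intro z hz
        refine hball ?_
        rw [mem_ball] at hz
        rw [mem_closedBall]
        have := dist_triangle z y x₀
        linarith
      obtain ⟨x, hx, hxy⟩ := h3 y hyS
      refine ⟨x, Finset.mem_filter.2 ⟨hx, ?_⟩, hxy⟩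
      have := dist_triangle x y x₀
      rw [dist_comm x y] at this
      linarith)
    have h8 : (r / 2) ^ d ≤ (r - 2 * s) ^ d := pow_le_pow_left₀ (by linarith) (by linarith) d
    have h9 : r ^ d = 2 ^ d * (r / 2) ^ d := by rw [← mul_pow]; congr 1; ring
    have h10 : 0 ≤ s ^ d * ((X.filter (fun x => dist x x₀ ≤ r)).card : ℝ) := by positivity
    have h11 : 0 ≤ 2 ^ d / om d * (s ^ d * ((X.filter (fun x => dist x x₀ ≤ r)).card : ℝ)) := by
      positivity
    have h12 : r ^ d ≤ 2 ^ d * (s ^ d * ((X.filter (fun x => dist x x₀ ≤ r)).card : ℝ)) := by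
      rw [h9]
      exact mul_le_mul_of_nonneg_left (h8.trans h7) (by positivity)
    rw [add_mul]
    linarith

theorem t_GRIDQ : S_GRIDQ d := by
  have ho := om_pos d
  refine ⟨8 ^ d, by positivity, ?_⟩
  intro ε τ hτ hτε
  have hpos : 0 < (τ / 2) ^ d * om d := by positivity
  have hb : ∀ (v : E2 d) (R : ℝ), 0 ≤ R → ∀ X : Finset (E2 d), (∀ x ∈ X, dist x v ≤ R) →
      Sep τ X → (X.card : ℝ) * ((τ / 2) ^ d * om d) ≤ (R + τ) ^ d * om d := by
    intro v R hR X hX hs
    have h1 := pack_le X τ hτ hs (closedBall v (R + τ)) measure_closedBall_lt_top (by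
      intro x hx z hz
      rw [mem_ball] at hz
      rw [mem_closedBall]
      have := dist_triangle z x v
      have := hX x hx
      linarith)
    rwa [vol_cball_real v (by linarith)] at h1
  obtain ⟨Q, h1, h2, h3⟩ := pack_exists (closedBall (0 : E2 d) (2 * ε)) τ hτ
    (⌊((2 * ε + τ) ^ d * om d) / ((τ / 2) ^ d * om d)⌋₊) (by
      intro X hX1 hX2
      refine Nat.le_floor ?_
      rw [le_div_iff₀ hpos]
      exact hb 0 (2 * ε) (by linarith) X (fun x hx => mem_closedBall.1 (hX1 x hx)) hX2)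
  have hε : 0 < ε := by linarith
  refine ⟨Q, ?_, ?_, ?_, ?_⟩
  · obtain ⟨x, hx, _⟩ := h3 0 (by simp; linarith)
    exact ⟨x, hx⟩
  · intro q hq
    simpa using h1 q hq
  · have h4 := cover_ge Q τ hτ 0 (2 * ε) (by linarith) h3
    have h5 : ε ^ d ≤ (2 * ε) ^ d := pow_le_pow_left₀ hε.le (by linarith) d
    have h6 : (1 : ℝ) ≤ 8 ^ d := one_le_pow₀ (by norm_num)
    have h7 : 0 ≤ τ ^ d * (Q.card : ℝ) := by positivity
    nlinarith
  · intro v r hr
    have h4 := hb v (3 * r) (by linarith) (Q.filter (fun q => dist q v ≤ 3 * r))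
      (fun x hx => (Finset.mem_filter.1 hx).2)
      (fun x hx y hy hxy => h2 x (Finset.mem_filter.1 hx).1 y (Finset.mem_filter.1 hy).1 hxy)
    generalize ((Q.filter (fun q => dist q v ≤ 3 * r)).card : ℝ) = n at *
    have h5 : (n * (τ / 2) ^ d) * om d ≤ (3 * r + τ) ^ d * om d := by
      calc (n * (τ / 2) ^ d) * om d = n * ((τ / 2) ^ d * om d) := by ring
        _ ≤ _ := h4
    have h6 := le_of_mul_le_mul_right h5 ho
    have h7 : (3 * r + τ) ^ d ≤ (4 * r) ^ d := pow_le_pow_left₀ (by linarith) (by linarith) d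
    have h8 : τ ^ d * n = 2 ^ d * (n * (τ / 2) ^ d) := by
      rw [div_pow]; field_simp
    have h9 : (8 : ℝ) ^ d * r ^ d = 2 ^ d * (4 * r) ^ d := by
      rw [← mul_pow, ← mul_pow]; congr 1; ring
    rw [h8, h9]
    exact mul_le_mul_of_nonneg_left (h6.trans h7) (by positivity)

end Pool.Agent.R952.LZ
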