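import Pool.Agent.R952.LZ.Stm

namespace Pool.Agent.R952.LZ

variable {d : ℕ}

open MeasureTheory Set Metric
open scoped NNReal ENNReal Classical

theorem t_PL : (S_PL d) := by
  intro J L hJ hL
  have hlip : ∀ x y : (E2 d), pl J x ≤ pl J y + L * ‖x - y‖ := by
    intro x y
    refine pl_le hJ fun j hj => ?_
    have h1 := le_pl hj y
    have h2 : inner ℝ j.1 x = inner ℝ j.1 y + inner ℝ j.1 (x - y) := by
      rw [← inner_add_right]; congr 1; abel
    have h3 : inner ℝ j.1 (x - y) ≤ ‖j.1‖ * ‖x - y‖ := real_inner_le_norm _ _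
    have h4 : ‖j.1‖ * ‖x - y‖ ≤ L * ‖x - y‖ :=
      mul_le_mul_of_nonneg_right (hL j hj) (norm_nonneg _)
    linarith
  refine ⟨⟨convex_univ, ?_⟩, ?_⟩
  · intro x _ y _ a b ha hb hab
    refine pl_le hJ fun j hj => ?_
    have h1 := le_pl hj x
    have h2 := le_pl hj y
    have h3 : inner ℝ j.1 (a • x + b • y) = a * inner ℝ j.1 x + b * inner ℝ j.1 y := by
      rw [inner_add_right, inner_smul_right, inner_smul_right]
    have h4 : j.2 = a * j.2 + b * j.2 := by rw [← add_mul, hab, one_mul]
    have h5 := mul_le_mul_of_nonneg_left h1 ha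
    have h6 := mul_le_mul_of_nonneg_left h2 hb
    rw [h3, smul_eq_mul, smul_eq_mul]
    linarith
  · intro x y
    rw [abs_le]
    have h1 := hlip x y
    have h2 := hlip y x
    rw [norm_sub_rev] at h2
    constructor <;> linarith

end Pool.Agent.R952.LZ
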