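import Pool.Agent.R952.LZ.Stm

/-! # SD: discrete potentials -/

namespace Pool.Agent.R952.LZ

variable {d : ℕ}

open MeasureTheory Set Metric Filter
open scoped NNReal ENNReal Topology Classical

namespace SDAux

/-- the discrete Legendre transform -/
noncomputable def mx (X : Finset (E2 d)) (hX : X.Nonempty) (q : (E2 d)) (a : (E2 d) → ℝ) : ℝ :=
  X.sup' hX (fun x => inner ℝ q x - a x)

theorem le_mx {X : Finset (E2 d)} (hX : X.Nonempty) (q : (E2 d)) (a : (E2 d) → ℝ) {x : (E2 d)} (hx : x ∈ X) :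
    inner ℝ q x - a x ≤ mx X hX q a :=
  Finset.le_sup' (fun x => inner ℝ q x - a x) hx

theorem mx_le {X : Finset (E2 d)} (hX : X.Nonempty) (q : (E2 d)) (a : (E2 d) → ℝ) {c : ℝ}
    (h : ∀ x ∈ X, inner ℝ q x - a x ≤ c) : mx X hX q a ≤ c :=
  Finset.sup'_le hX _ h

theorem mx_shift {X : Finset (E2 d)} (hX : X.Nonempty) (q : (E2 d)) (a a' : (E2 d) → ℝ) (c : ℝ)
    (h : ∀ x ∈ X, a' x = a x - c) : mx X hX q a' = mx X hX q a + c := by
  apply le_antisymm
  · refine mx_le hX q a' fun x hx => ?_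
    have := le_mx hX q a hx
    rw [h x hx]
    linarith
  · rw [← le_sub_iff_add_le]
    refine mx_le hX q a fun x hx => ?_
    have := le_mx hX q a' hx
    rw [h x hx] at this
    linarith

/-- the functional -/
noncomputable def Ph (X Q : Finset (E2 d)) (hX : X.Nonempty) (M : ℝ) (a : (E2 d) → ℝ) : ℝ :=
  ∑ q ∈ Q, mx X hX q a + M * ∑ x ∈ X, a x

theorem Ph_cont (X Q : Finset (E2 d)) (hX : X.Nonempty) (M : ℝ) : Continuous (Ph X Q hX M) := by
  unfold Ph mx
  refine Continuous.add (continuous_finsetSum _ fun q _ => ?_) ?_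
  · refine Continuous.finset_sup'_apply hX fun x _ => ?_
    exact continuous_const.sub (continuous_apply x)
  · exact continuous_const.mul (continuous_finsetSum _ fun x _ => continuous_apply x)

theorem exists_min (X Q : Finset (E2 d)) (hX : X.Nonempty) (hQ : Q.Nonempty) :
    ∃ a : (E2 d) → ℝ, ∀ a' : (E2 d) → ℝ,
      Ph X Q hX ((Q.card : ℝ) / X.card) a ≤ Ph X Q hX ((Q.card : ℝ) / X.card) a' := by
  have hXc : (0 : ℝ) < X.card := by exact_mod_cast hX.card_pos
  have hQc : (0 : ℝ) < Q.card := by exact_mod_cast hQ.card_pos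
  set M := (Q.card : ℝ) / X.card with hM
  have hM0 : 0 < M := by positivity
  have hMX : M * X.card = Q.card := by rw [hM]; field_simp
  set C := ∑ q ∈ Q, ∑ x ∈ X, |inner ℝ q x| with hC
  have hC0 : 0 ≤ C := Finset.sum_nonneg fun q _ => Finset.sum_nonneg fun x _ => abs_nonneg _
  set B := 2 * C / M with hB
  have hB0 : 0 ≤ B := by positivity
  have hMB : M * B = 2 * C := by rw [hB]; field_simp
  have hcomp : IsCompact (Set.pi univ (fun _ : (E2 d) => Icc (0 : ℝ) B)) :=
    isCompact_univ_pi fun _ => isCompact_Icc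
  have hz : (fun _ => (0 : ℝ)) ∈ Set.pi univ (fun _ : (E2 d) => Icc (0 : ℝ) B) :=
    fun _ _ => ⟨le_refl _, hB0⟩
  obtain ⟨a, ha, hmin⟩ := hcomp.exists_isMinOn ⟨_, hz⟩ (Ph_cont X Q hX M).continuousOn
  refine ⟨a, fun a' => ?_⟩
  have hPh0 : Ph X Q hX M (fun _ => 0) ≤ C := by
    unfold Ph
    rw [Finset.sum_const_zero, mul_zero, add_zero, hC]
    refine Finset.sum_le_sum fun q _ => mx_le hX q _ fun x hx => ?_
    rw [sub_zero]
    exact (le_abs_self _).trans (Finset.single_le_sum (f := fun x => |inner ℝ q x|)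
      (fun x _ => abs_nonneg _) hx)
  -- normalise
  obtain ⟨x0, hx0, hm⟩ := X.exists_mem_eq_inf' hX a'
  set m := X.inf' hX a' with hmdef
  have hmle : ∀ x ∈ X, m ≤ a' x := fun x hx => Finset.inf'_le a' hx
  set a2 : (E2 d) → ℝ := fun x => if x ∈ X then a' x - m else 0 with ha2
  have e1 : ∀ x ∈ X, a2 x = a' x - m := fun x hx => by rw [ha2]; simp [hx]
  have ePh : Ph X Q hX M a2 = Ph X Q hX M a' := by
    unfold Ph
    rw [Finset.sum_congr rfl (fun q _ => mx_shift hX q a' a2 m e1), Finset.sum_add_distrib,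
      Finset.sum_congr rfl e1, Finset.sum_sub_distrib, Finset.sum_const, Finset.sum_const,
      nsmul_eq_mul, nsmul_eq_mul, ← hMX]
    ring
  rw [← ePh]
  have ha20 : ∀ x, 0 ≤ a2 x := by
    intro x
    rw [ha2]
    dsimp only
    split_ifs with hx
    · linarith [hmle x hx]
    · exact le_refl _
  by_cases hcase : ∀ x, a2 x ≤ B
  · exact hmin (fun x _ => ⟨ha20 x, hcase x⟩)
  · push Not at hcase
    obtain ⟨x1, hx1⟩ := hcase
    have hx1X : x1 ∈ X := by
      by_contra hcon
      have : a2 x1 = 0 := by rw [ha2]; simp [hcon]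
      linarith
    have h1 : Ph X Q hX M a ≤ Ph X Q hX M (fun _ => 0) := hmin hz
    refine (h1.trans hPh0).trans ?_
    unfold Ph
    have h2 : -C ≤ ∑ q ∈ Q, mx X hX q a2 := by
      rw [hC, ← Finset.sum_neg_distrib]
      refine Finset.sum_le_sum fun q _ => ?_
      have h3 := le_mx hX q a2 hx0
      have h4 : a2 x0 = 0 := by rw [e1 x0 hx0, ← hm]; exact sub_self _
      rw [h4, sub_zero] at h3
      refine le_trans ?_ h3
      have h5 : |inner ℝ q x0| ≤ ∑ x ∈ X, |inner ℝ q x| :=
        Finset.single_le_sum (f := fun x => |inner ℝ q x|) (fun x _ => abs_nonneg _) hx0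
      have h6 := neg_abs_le (inner ℝ q x0 : ℝ)
      linarith
    have h3 : a2 x1 ≤ ∑ x ∈ X, a2 x :=
      Finset.single_le_sum (fun x _ => ha20 x) hx1X
    have h4 : M * B ≤ M * ∑ x ∈ X, a2 x := mul_le_mul_of_nonneg_left (by linarith) hM0.le
    linarith

end SDAux

open SDAux

theorem t_SD : (S_SD d) := by
  intro X Q hX hQ
  have hXc : (0 : ℝ) < X.card := by exact_mod_cast hX.card_pos
  have hQc : (0 : ℝ) < Q.card := by exact_mod_cast hQ.card_pos
  obtain ⟨a, ha⟩ := exists_min X Q hX hQ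
  set M := (Q.card : ℝ) / X.card with hM
  have hM0 : 0 < M := by positivity
  refine ⟨a, fun A hA => ?_⟩
  set N := Q.filter (fun q => ∃ x ∈ A, ∀ x' ∈ X,
        inner ℝ q x' - a x' ≤ inner ℝ q x - a x) with hN
  -- a small step
  obtain ⟨t, ht0, ht⟩ : ∃ t : ℝ, 0 < t ∧ ∀ q ∈ Q, ∀ x ∈ X,
      0 < mx X hX q a - (inner ℝ q x - a x) → t ≤ mx X hX q a - (inner ℝ q x - a x) := by
    have h1 : ∀ᶠ t in 𝓝[>] (0 : ℝ), ∀ q ∈ Q, ∀ x ∈ X,
        0 < mx X hX q a - (inner ℝ q x - a x) → t ≤ mx X hX q a - (inner ℝ q x - a x) := by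
      rw [Filter.eventually_all_finset]
      intro q _
      rw [Filter.eventually_all_finset]
      intro x _
      by_cases h : 0 < mx X hX q a - (inner ℝ q x - a x)
      · have : ∀ᶠ t in 𝓝[>] (0 : ℝ), t < mx X hX q a - (inner ℝ q x - a x) :=
          (eventually_lt_nhds h).filter_mono nhdsWithin_le_nhds
        filter_upwards [this] with t ht _
        exact ht.le
      · exact Filter.Eventually.of_forall fun t hh => absurd hh h
    obtain ⟨t, ht⟩ := (h1.and self_mem_nhdsWithin).exists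
    exact ⟨t, ht.2, ht.1⟩
  set a1 : (E2 d) → ℝ := fun x => a x - if x ∈ A then t else 0 with ha1
  have h1 := ha a1
  have hsum : ∑ x ∈ X, a1 x = ∑ x ∈ X, a x - A.card * t := by
    rw [ha1, Finset.sum_sub_distrib]
    congr 1
    rw [Finset.sum_ite_mem, Finset.inter_eq_right.2 hA, Finset.sum_const, nsmul_eq_mul]
  have hmx : ∀ q ∈ Q, mx X hX q a1 ≤ mx X hX q a + if q ∈ N then t else 0 := by
    intro q hq
    refine mx_le hX q a1 fun x hx => ?_
    have h2 := le_mx hX q a hx
    by_cases hqN : q ∈ N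
    · rw [if_pos hqN, ha1]
      dsimp only
      split_ifs <;> linarith
    · rw [if_neg hqN, add_zero, ha1]
      dsimp only
      by_cases hxA : x ∈ A
      · rw [if_pos hxA]
        have h3 : 0 < mx X hX q a - (inner ℝ q x - a x) := by
          by_contra hcon
          push Not at hcon
          apply hqN
          rw [hN, Finset.mem_filter]
          refine ⟨hq, x, hxA, fun x' hx' => ?_⟩
          have := le_mx hX q a hx'
          linarith
        have := ht q hq x hx h3
        linarith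
      · rw [if_neg hxA]
        linarith
  have hsum2 : ∑ q ∈ Q, mx X hX q a1 ≤ ∑ q ∈ Q, mx X hX q a + N.card * t := by
    refine (Finset.sum_le_sum hmx).trans ?_
    rw [Finset.sum_add_distrib, Finset.sum_ite_mem, Finset.inter_eq_right.2 (Finset.filter_subset _ _),
      Finset.sum_const, nsmul_eq_mul]
  unfold Ph at h1
  rw [hsum] at h1
  have h2 : M * (A.card * t) ≤ N.card * t := by
    have e : M * (∑ x ∈ X, a x - A.card * t) = M * ∑ x ∈ X, a x - M * (A.card * t) := by ring
    rw [e] at h1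
    linarith
  have h3 : (M * A.card) * t ≤ N.card * t := by linarith
  have h4 := le_of_mul_le_mul_right h3 ht0
  have h5 := mul_le_mul_of_nonneg_left h4 hXc.le
  calc (Q.card : ℝ) * A.card = X.card * (M * A.card) := by rw [hM]; field_simp
    _ ≤ X.card * N.card := h5

end Pool.Agent.R952.LZ
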