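import Pool.Agent.R952.LZ.Stm

namespace Pool.Agent.R952.LZ

variable {d : ℕ}

open MeasureTheory Set Metric
open scoped NNReal ENNReal Classical

theorem t_SUBG : (S_SUBG d) := by
  intro h L hL hconv hlip x v hc
  have key : ∀ z : (E2 d), h x + inner ℝ v (z - x) ≤ h z := by
    intro z
    set D : ℝ := ‖z - x‖ ^ 2 / 2 with hD
    have hD0 : 0 ≤ D := by positivity
    have step : ∀ t : ℝ, 0 < t → h x + inner ℝ v (z - x) ≤ h z + t * D := by
      intro t ht
      set w : (E2 d) := x - t • (z - x) with hw
      have h1t : 0 < 1 + t := by linarith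
      have hx : (t / (1 + t)) • z + (1 / (1 + t)) • w = x := by
        rw [hw, smul_sub, smul_smul, smul_sub]
        have e1 : 1 / (1 + t) * t = t / (1 + t) := by ring
        rw [e1]
        have e2 : (t / (1 + t)) • z + ((1 / (1 + t)) • x - ((t / (1 + t)) • z - (t / (1 + t)) • x)) =
            (1 / (1 + t) + t / (1 + t)) • x := by
          rw [add_smul]; abel
        rw [e2]
        have e3 : 1 / (1 + t) + t / (1 + t) = 1 := by field_simp
        rw [e3, one_smul]
      have h1 := hconv.2 (mem_univ z) (mem_univ w) (show (0 : ℝ) ≤ t / (1 + t) by positivity)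
        (show (0 : ℝ) ≤ 1 / (1 + t) by positivity) (by field_simp; ring)
      rw [hx, smul_eq_mul, smul_eq_mul] at h1
      have h2 := hc w
      have h3 : w - x = -(t • (z - x)) := by rw [hw]; abel
      rw [h3, inner_neg_right, inner_smul_right, norm_neg, norm_smul, Real.norm_of_nonneg ht.le] at h2
      have h4 : (1 + t) * h x ≤ t * h z + h w := by
        have := mul_le_mul_of_nonneg_left h1 h1t.le
        have e4 : (1 + t) * (t / (1 + t) * h z + 1 / (1 + t) * h w) = t * h z + h w := by
          field_simp
        linarith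
      have h5 : (t * ‖z - x‖) ^ 2 / 2 = t * (t * D) := by rw [hD]; ring
      rw [h5] at h2
      have h6 : t * (h x + inner ℝ v (z - x)) ≤ t * (h z + t * D) := by
        nlinarith
      exact le_of_mul_le_mul_left h6 ht
    by_contra hcon
    push Not at hcon
    set δ : ℝ := h x + inner ℝ v (z - x) - h z with hδ
    have hδ0 : 0 < δ := by rw [hδ]; linarith
    have h1 := step (δ / (2 * (D + 1))) (by positivity)
    have h2 : δ / (2 * (D + 1)) * D < δ := by
      rw [div_mul_eq_mul_div, div_lt_iff₀ (by positivity)]
      nlinarith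
    linarith
  refine ⟨key, ?_⟩
  have h1 := key (x + v)
  rw [add_sub_cancel_left, real_inner_self_eq_norm_sq] at h1
  have h2 := hlip (x + v) x
  rw [add_sub_cancel_left] at h2
  have h3 := le_of_abs_le h2
  by_contra hcon
  push Not at hcon
  have h4 : 0 < ‖v‖ := lt_of_le_of_lt hL hcon
  nlinarith

end Pool.Agent.R952.LZ
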