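import Pool.Agent.R952.LZ.Defs

namespace Pool.Agent.R952.LZ

open MeasureTheory Set Metric
open scoped NNReal ENNReal Classical

/-- Discrete potentials (finite semi-discrete transport, Hall form). -/
def S_SD (d : ℕ) : Prop := ∀ X Q : Finset (E2 d), X.Nonempty → Q.Nonempty →
  ∃ a : (E2 d) → ℝ, ∀ A : Finset (E2 d), A ⊆ X →
    (Q.card : ℝ) * (A.card : ℝ) ≤ (X.card : ℝ) *
      ((Q.filter (fun q => ∃ x ∈ A, ∀ x' ∈ X,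
        inner ℝ q x' - a x' ≤ inner ℝ q x - a x)).card : ℝ)

/-- Separated points of an open set of finite measure. -/
def S_GRIDX (d : ℕ) : Prop := ∃ c₁ : ℝ, 0 < c₁ ∧ ∀ W : Set (E2 d), IsOpen W → volume W < ⊤ →
  ∀ s : ℝ, 0 < s →
  ∃ X : Finset (E2 d), (X.card : ℝ) * s ^ d ≤ c₁ * (volume W).toReal ∧
    ∀ (x₀ : (E2 d)) (r : ℝ), 10 * s ≤ r → closedBall x₀ r ⊆ W →
      r ^ d ≤ c₁ * (s ^ d * ((X.filter (fun x => dist x x₀ ≤ r)).card : ℝ))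

/-- Separated slopes. -/
def S_GRIDQ (d : ℕ) : Prop := ∃ c₂ : ℝ, 0 < c₂ ∧ ∀ ε τ : ℝ, 0 < τ → 4 * τ ≤ ε →
  ∃ Q : Finset (E2 d), Q.Nonempty ∧ (∀ q ∈ Q, ‖q‖ ≤ 2 * ε) ∧
    ε ^ d ≤ c₂ * (τ ^ d * (Q.card : ℝ)) ∧
    ∀ (v : (E2 d)) (r : ℝ), 10 * τ ≤ r →
      τ ^ d * ((Q.filter (fun q => dist q v ≤ 3 * r)).card : ℝ) ≤ c₂ * r ^ d

/-- Finite potentials without near contact points. -/
def S_NCFIN (d : ℕ) : Prop := ∃ c : ℝ, 0 < c ∧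
  ∀ W : Set (E2 d), IsOpen W → volume W < ⊤ → ∀ ε : ℝ, 0 < ε →
  c * (volume W).toReal ≤ ε ^ d → ∀ ρ : ℝ, 0 < ρ →
  ∃ J : Finset ((E2 d) × ℝ), J.Nonempty ∧ (∀ j ∈ J, ‖j.1‖ ≤ 2 * ε) ∧
    ∀ (x₀ v : (E2 d)) (r : ℝ), ρ ≤ r → closedBall x₀ r ⊆ W → ‖v‖ ≤ 2 * ε →
      ¬ (∀ z : (E2 d), ‖z - x₀‖ ≤ 4 * ε + r →
        pl J x₀ + inner ℝ v (z - x₀) - r ^ 2 / 2 ≤ pl J z ∧
        pl J z ≤ pl J x₀ + inner ℝ v (z - x₀) + ‖z - x₀‖ ^ 2 / 2 + r ^ 2 / 2)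

/-- A paraboloid touching a convex Lipschitz function from above has subgradient slope. -/
def S_SUBG (d : ℕ) : Prop := ∀ (h : (E2 d) → ℝ) (L : ℝ), 0 ≤ L → ConvexOn ℝ univ h → Lip L h →
  ∀ x v : (E2 d), (∀ z : (E2 d), h z ≤ h x + inner ℝ v (z - x) + ‖z - x‖ ^ 2 / 2) →
    (∀ z : (E2 d), h x + inner ℝ v (z - x) ≤ h z) ∧ ‖v‖ ≤ L

/-- Polyhedral functions are convex and Lipschitz. -/
def S_PL (d : ℕ) : Prop := ∀ (J : Finset ((E2 d) × ℝ)) (L : ℝ), J.Nonempty → (∀ j ∈ J, ‖j.1‖ ≤ L) →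
  ConvexOn ℝ univ (pl J) ∧ Lip L (pl J)

/-- The infinite version: a convex Lipschitz function without contact points in `W`. -/
def S_LIM (d : ℕ) : Prop := ∃ c : ℝ, 0 < c ∧
  ∀ W : Set (E2 d), IsOpen W → volume W < ⊤ → ∀ ε : ℝ, 0 < ε →
  c * (volume W).toReal ≤ ε ^ d →
  ∃ h : (E2 d) → ℝ, ConvexOn ℝ univ h ∧ Lip (2 * ε) h ∧ ∀ x ∈ W, ¬ Contact h x

/-- The collapse map as a proximal map. -/
def S_PROX (d : ℕ) : Prop := ∀ (h : (E2 d) → ℝ) (L : ℝ), 0 ≤ L → ConvexOn ℝ univ h → Lip L h →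
  ∃ (k : (E2 d) → ℝ) (F : (E2 d) → (E2 d)) (Z : Set (E2 d)),
    (∀ p : (E2 d), IsLUB (range fun y : (E2 d) => h (p + y) - ‖y‖ ^ 2 / 2) (k p)) ∧
    (∀ x p : (E2 d), F x = p ↔ ∀ p' : (E2 d), k p + inner ℝ (x - p) (p' - p) ≤ k p') ∧
    Collapse h L F Z

end Pool.Agent.R952.LZ
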